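import Pool.Agent.Q331.FC.Stmts

set_option autoImplicit false

namespace Pool.Agent.Q39.FCF

open Pool.Agent.Q331.FC MeasureTheory ProbabilityTheory Filter Topology Finset

theorem zero_meas (hM : TaskMart) {E : Type} [MeasurableSpace E] (ν : Measure E)
    [IsProbabilityMeasure ν] (f : E → ℝ) (hfm : Measurable f) (hf : Integrable f ν)
    (h0 : ∫ e, f e ∂ν = 0) (D : ℝ)
    (hD : ∀ n : ℕ, ∫ y, |∑ i ∈ range n, f (y (i : ℤ))| ∂iid ν ≤ D) : f =ᵐ[ν] 0 := by
  obtain ⟨F, hF⟩ := hM E ν f hfm hf h0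
  have hlim : ∀ᵐ y ∂iid ν, Tendsto (fun n => ∑ i ∈ range n, f (y (i : ℤ))) atTop
      (𝓝 (F.limitProcess (fun n (y : ℤ → E) => ∑ i ∈ range n, f (y (i : ℤ))) (iid ν) y)) := by
    refine hF.submartingale.ae_tendsto_limitProcess (R := D.toNNReal) (fun n => ?_)
    rw [eLpNorm_one_eq_lintegral_enorm]
    have h1 := hF.integrable n
    rw [← ofReal_integral_norm_eq_lintegral_enorm h1]
    have h2 : ∫ y, ‖∑ i ∈ range n, f (y (i : ℤ))‖ ∂iid ν ≤ D := hD n
    exact ENNReal.ofReal_le_ofReal h2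
  have hstep : ∀ᵐ y ∂iid ν, Tendsto (fun n : ℕ => f (y (n : ℤ))) atTop (𝓝 0) := by
    filter_upwards [hlim] with y hy
    have h1 := (hy.comp (tendsto_add_atTop_nat 1)).sub hy
    rw [sub_self] at h1
    refine h1.congr fun n => ?_
    simp [Finset.sum_range_succ]
  have hmeas : ∀ n : ℕ, Measurable fun y : ℤ → E => f (y (n : ℤ)) := fun n =>
    hfm.comp (measurable_pi_apply _)
  have hTM := tendstoInMeasure_of_tendsto_ae (μ := iid ν)
    (f := fun (n : ℕ) (y : ℤ → E) => f (y (n : ℤ))) (g := fun _ => 0)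
    (fun n => (hmeas n).aestronglyMeasurable) hstep
  have hlaw : ∀ (n : ℕ) (ε : ENNReal), iid ν {y | ε ≤ edist (f (y (n : ℤ))) 0} =
      ν {e | ε ≤ edist (f e) 0} := by
    intro n ε
    have hp := measurePreserving_eval_infinitePi (fun _ : ℤ => ν) (n : ℤ)
    have hs : MeasurableSet {e | ε ≤ edist (f e) 0} :=
      measurableSet_le measurable_const (hfm.edist measurable_const)
    exact hp.measure_preimage hs.nullMeasurableSet
  have hz : ∀ ε : ENNReal, 0 < ε → ν {e | ε ≤ edist (f e) 0} = 0 := by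
    intro ε hε
    have h1 := hTM ε hε
    simp only [hlaw] at h1
    exact tendsto_nhds_unique tendsto_const_nhds h1
  have hall : ∀ᵐ e ∂ν, ∀ k : ℕ, ¬ ((k : ENNReal) + 1)⁻¹ ≤ edist (f e) 0 := by
    rw [ae_all_iff]
    intro k
    have := hz ((k : ENNReal) + 1)⁻¹ (by simp)
    rw [ae_iff]
    simpa using this
  filter_upwards [hall] with e he
  show f e = 0
  by_contra hne
  have hpos : 0 < edist (f e) 0 := edist_pos.2 hne
  obtain ⟨k, hk⟩ := ENNReal.exists_inv_nat_lt hpos.ne'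
  refine he k (le_trans ?_ hk.le)
  apply ENNReal.inv_le_inv.2
  exact le_self_add

theorem main : Pool.Agent.Q331.FC.TaskZero := by
  intro hM E _ ν _ f hf h0 D hD
  have hg := hf.aestronglyMeasurable
  set g := hf.aemeasurable.mk f with hgdef
  have hgm : Measurable g := hf.aemeasurable.measurable_mk
  have hfg : f =ᵐ[ν] g := hf.aemeasurable.ae_eq_mk
  have hall : ∀ᵐ y ∂iid ν, ∀ i : ℕ, f (y (i : ℤ)) = g (y (i : ℤ)) := by
    rw [ae_all_iff]
    intro i
    exact (measurePreserving_eval_infinitePi (fun _ : ℤ => ν) (i : ℤ)).quasiMeasurePreserving.ae hfg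
  have h1 : g =ᵐ[ν] 0 := by
    refine zero_meas hM ν g hgm (hf.congr hfg) ?_ D (fun n => ?_)
    · rw [← integral_congr_ae hfg]; exact h0
    · refine le_trans (le_of_eq ?_) (hD n)
      apply integral_congr_ae
      filter_upwards [hall] with y hy
      rw [Finset.sum_congr rfl (fun i _ => hy i)]
  exact hfg.trans h1

end Pool.Agent.Q39.FCF
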